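import Pool.Agent.U481.GL.Stm
import Pool.Agent.U195.HW.Iter

set_option autoImplicit false

/-!
Project GL, package ITERT: the pointwise sparse bound for an abstract operator `S` (the proof of
package ITER, helper195, and ITERQ, helper103, with `S` in place of `hilbert`).
-/

open MeasureTheory Filter Topology Set
open scoped ENNReal NNReal

namespace Pool.Agent.U574.GL.ITERT

open Pool.Agent.U481.HW Pool.Agent.U481.GL Pool.Agent.U195.HW.Iter

theorem main : S_stepT → S_iterT := by
  intro hstep S hS
  obtain ⟨C, hC, hst⟩ := hstep S hS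
  refine ⟨C, hC, fun f hf q => ?_⟩
  choose F hsub hdis hhalf hout hin using fun r => hst f hf r
  refine ⟨gen F q, sparse_gen q hsub hdis hhalf, ?_⟩
  have hA : ∀ᵐ x, x ∉ ⋂ k : ℕ, ⋃ s ∈ gen F q k, DD s := by
    rw [ae_iff]
    simp only [not_not]
    exact gen_null q hsub hdis hhalf
  have hB : ∀ᵐ x, ∀ r : ℤ × ℤ, x ∈ DD r → (∀ s ∈ F r, x ∉ DD s) →
      S (lo f r) x ≤ C * av f r := ae_all_iff.2 hout
  have hD : ∀ᵐ x, ∀ r s : ℤ × ℤ, s ∈ F r → x ∈ DD s →
      S (lo f r) x ≤ S (lo f s) x + C * av f r := by
    rw [ae_all_iff]; intro r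
    rw [ae_all_iff]; intro s
    by_cases hs : s ∈ F r
    · filter_upwards [hin r s hs] with x hx _ using hx
    · exact Eventually.of_forall fun x h => absurd h hs
  filter_upwards [hA, hB, hD] with x hxA hxB hxD hxq
  have key : ∀ k, (x ∈ ⋃ s ∈ gen F q k, DD s) → ∃ r ∈ gen F q k, x ∈ DD r ∧
      S (lo f q) x ≤ S (lo f r) x
        + C * ∑ j ∈ Finset.range k, T f (gen F q) x j := by
    intro k
    induction k with
    | zero =>
      intro _
      exact ⟨q, by simp [gen], hxq, by simp⟩
    | succ k ih =>
      intro hx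
      obtain ⟨r, hr, hxr, hle⟩ := ih (gen_anti q hsub k hx)
      have hx2 := gen_inter q hsub hdis k r hr ⟨hxr, hx⟩
      simp only [mem_iUnion] at hx2
      obtain ⟨s, hs, hxs⟩ := hx2
      refine ⟨s, (mem_gen_succ F q k s).2 ⟨r, hr, hs⟩, hxs, ?_⟩
      calc S (lo f q) x
          ≤ S (lo f r) x + C * ∑ j ∈ Finset.range k, T f (gen F q) x j := hle
        _ ≤ (S (lo f s) x + C * av f r)
            + C * ∑ j ∈ Finset.range k, T f (gen F q) x j := by
              gcongr
              exact hxD r s hs hxs
        _ ≤ (S (lo f s) x + C * T f (gen F q) x k)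
            + C * ∑ j ∈ Finset.range k, T f (gen F q) x j := by
              gcongr
              exact av_le_T f _ x k r hr hxr
        _ = S (lo f s) x + C * ∑ j ∈ Finset.range (k + 1), T f (gen F q) x j := by
              rw [Finset.sum_range_succ]; ring
  have hex : ∃ k, x ∉ ⋃ s ∈ gen F q k, DD s := by
    simpa only [mem_iInter, not_forall] using hxA
  classical
  have hk := Nat.find_spec hex
  have hmin : ∀ m < Nat.find hex, x ∈ ⋃ s ∈ gen F q m, DD s := fun m hm => by
    by_contra h
    exact Nat.find_min hex hm h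
  rcases hK : Nat.find hex with _ | k
  · rw [hK] at hk
    exact absurd hxq (by simpa [gen] using hk)
  · rw [hK] at hk hmin
    obtain ⟨r, hr, hxr, hle⟩ := key k (hmin k (Nat.lt_succ_self k))
    have hno : ∀ s ∈ F r, x ∉ DD s := by
      intro s hs hxs
      exact hk (mem_biUnion ((mem_gen_succ F q k s).2 ⟨r, hr, hs⟩) hxs)
    calc S (lo f q) x
        ≤ S (lo f r) x + C * ∑ j ∈ Finset.range k, T f (gen F q) x j := hle
      _ ≤ C * T f (gen F q) x k + C * ∑ j ∈ Finset.range k, T f (gen F q) x j := by
          gcongr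
          refine (hxB r hxr hno).trans ?_
          gcongr
          exact av_le_T f _ x k r hr hxr
      _ = C * ∑ j ∈ Finset.range (k + 1), T f (gen F q) x j := by
          rw [Finset.sum_range_succ]; ring
      _ ≤ C * SS f (gen F q) x := by
          gcongr
          exact ENNReal.sum_le_tsum _

end Pool.Agent.U574.GL.ITERT
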